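import Pool.Agent.U946.TR.Ell
import Pool.Agent.U901.TR.RAM

/-!
# Topological Ramsey spaces: Ellentuck open sets are completely Ramsey
-/

set_option autoImplicit false

namespace Pool.Agent.U946.TR.Opn

open Set Pool.Agent.Q147.TR Pool.Agent.U946.TR

open Pool.Agent.U901.TR (Acc Rej Acc.mono Rej.mono dec_dense cube_ne len_eq)

/-- Ellentuck open sets are completely Ramsey (proof adapted from `Pool.Agent.U901.TR.cr_open` of
helper901). -/
theorem openRam (T : TRS) : OpenRam T := by
  intro U hU a B n ha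
  obtain ⟨C, hC, hP⟩ := Pool.Agent.U901.TR.fusion n (fun _ v C => Acc T U v C ∨ (Rej T U v C ∧
      ∀ X ∈ Cube T v C, ∀ l, T.r l X = v → Rej T U (T.r (l + 1) X) C))
    (by
      rintro m v B C (h | ⟨h, h'⟩) hle
      · exact Or.inl (h.mono hle)
      · exact Or.inr ⟨h.mono hle, fun X hX l hl => (h' X (Pool.Agent.U901.TR.Cube.mono hle hX) l hl).mono hle⟩)
    (by
      intro m _ v B hv
      obtain ⟨B1, h1, h2⟩ := Pool.Agent.U901.TR.fusion m (fun _ v C => Acc T U v C ∨ Rej T U v C)
        (by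
          rintro m v B C (h | h) hle
          · exact Or.inl (h.mono hle)
          · exact Or.inr (h.mono hle))
        (fun m _ v B hv => dec_dense U v B m hv) B
      have hv1 := Pool.Agent.U901.TR.Dep.inn hv h1
      rcases h2 m le_rfl v hv1 with h3 | h3
      · exact ⟨B1, h1, Or.inl h3⟩
      · obtain ⟨l, A, hA⟩ := T.surj v
        obtain ⟨C, hC, h4⟩ := T.A4 B1 v m l hv1 ⟨A, hA⟩ {w | Acc T U w B1}
        have hC' : In T m C B1 := hC
        refine ⟨C, Pool.Agent.U901.TR.In.trans hC' le_rfl h1, Or.inr ⟨h3.mono hC'.1, ?_⟩⟩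
        rcases h4 with h4 | h4
        · exfalso
          refine h3 C hC'.1 (cube_ne hv1 hC') fun X hX => ?_
          exact h4 X hX.1 hX.2 ⟨T.le_trans _ _ _ hX.1 hC'.1, l + 1, rfl⟩
        · intro X hX l' hl'
          have hll : l' = l := len_eq (hl'.trans hA.symm)
          subst hll
          have h5 : ¬ Acc T U (T.r (l' + 1) X) B1 := h4 X hX.1 hX.2
          have hXB : T.le X B1 := T.le_trans _ _ _ hX.1 hC'.1
          obtain ⟨m', hm'⟩ := Pool.Agent.U901.TR.Dep.exists_of_le hXB (l' + 1)
          have hmm : m ≤ m' := by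
            have hv2 : Dep T (T.r l' X) B1 m := by rw [hl']; exact hv1
            exact Pool.Agent.U901.TR.Dep.mono (Nat.le_succ l') hv2 hm'
          rcases h2 m' hmm _ hm' with h6 | h6
          · exact absurd h6 h5
          · exact h6.mono hC'.1) B
  have ha1 := Pool.Agent.U901.TR.Dep.inn ha hC
  rcases hP n le_rfl a ha1 with h | ⟨h, -⟩
  · exact ⟨C, hC, Or.inl h⟩
  · refine ⟨C, hC, Or.inr ?_⟩
    rw [Set.disjoint_left]
    rintro X ⟨hXC, l, hl⟩ hXU
    obtain ⟨k, hk⟩ := hU X hXU
    have key : ∀ i, Rej T U (T.r (l + i) X) C := by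
      intro i
      induction i with
      | zero =>
        rw [add_zero, hl]
        exact h
      | succ i ih =>
        obtain ⟨m, hm⟩ := Pool.Agent.U901.TR.Dep.exists_of_le hXC (l + i)
        have hnm : n ≤ m := by
          have hv2 : Dep T (T.r l X) C n := by rw [hl]; exact ha1
          exact Pool.Agent.U901.TR.Dep.mono (Nat.le_add_right l i) hv2 hm
        rcases hP m hnm _ hm with h7 | ⟨-, h7⟩
        · exact absurd h7 (ih C (T.le_refl C) ⟨X, hXC, l + i, rfl⟩)
        · exact h7 X ⟨hXC, l + i, rfl⟩ (l + i) rfl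
    exact key k X hXC ⟨X, T.le_refl X, l + k, rfl⟩
      ((cube_anti (Nat.le_add_left k l)).trans hk)

end Pool.Agent.U946.TR.Opn
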