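import Pool.Agent.U946.TR.Key

/-!
# Topological Ramsey spaces: countable Borel equivalence relations are hyperfinite on a cube
-/

set_option autoImplicit false

namespace Pool.Agent.U946.TR

open Set Pool.Agent.Q147.TR

attribute [local instance] bor

variable {T : TRS}

/-- A finite Borel equivalence relation contained in `E` and covered by the graphs of finitely many
words in the maps `s i`. -/
structure FR (T : TRS) (E : T.R → T.R → Prop) (s : ℕ → T.R → T.R) where
  F : T.R → T.R → Prop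
  W : Finset (List ℕ)
  eqv : Equivalence F
  sub : ∀ x y, F x y → E x y
  bd : ∀ x y, F x y → ∃ l ∈ W, wd s l x = y
  meas : ∀ f g : T.R → T.R, Measurable f → Measurable g → MeasurableSet {x | F (f x) (g x)}

theorem absorb (hR : Ram T) [Countable T.AR] (E : T.R → T.R → Prop) (hE : Equivalence E)
    (s : ℕ → T.R → T.R) (hs : ∀ i, Measurable (s i))
    (hi : ∀ i x, s i (s i x) = x) (hsE : ∀ i x, E x (s i x)) (st : FR T E s) (i : ℕ) (u : T.AR)
    (B : T.R) (n : ℕ) (hd : Dep T u B n) :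
    ∃ (st' : FR T E s) (C : T.R), In T n C B ∧ (∀ x y, st.F x y → st'.F x y) ∧
      ∀ X ∈ Cube T u C, st'.F X (s i X) := by
  classical
  let D : Finset (List ℕ) := {[], [i]}
  have hD : ∀ d ∈ D, ∀ x, wd s d (wd s d x) = x := by
    intro d hd x
    rcases Finset.mem_insert.1 hd with rfl | hd
    · rfl
    · rw [Finset.mem_singleton.1 hd]
      exact hi i x
  -- the words for independence
  let W₁ : Finset (List ℕ) := (((D ×ˢ D) ×ˢ (st.W ×ˢ st.W))).image
    (fun p => p.1.1 ++ (p.2.1.reverse ++ (p.2.2 ++ p.1.2)))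
  obtain ⟨C, hC, hind⟩ := key3 hR s hs hi W₁ u B n hd
  let In' : T.R → T.R → Prop := fun X z => st.F X z ∨ st.F (s i X) z
  have hIn : ∀ X z, In' X z → ∃ d ∈ D, ∃ w ∈ st.W, wd s (w ++ d) X = z := by
    rintro X z (h | h)
    · obtain ⟨w, hw, h1⟩ := st.bd _ _ h
      exact ⟨[], Finset.mem_insert_self _ _, w, hw, by rw [List.append_nil]; exact h1⟩
    · obtain ⟨w, hw, h1⟩ := st.bd _ _ h
      exact ⟨[i], Finset.mem_insert_of_mem (Finset.mem_singleton_self _), w, hw, by
        rw [wd_append]; exact h1⟩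
  -- disjointness
  have hdisj : ∀ X ∈ Cube T u C, ∀ X' ∈ Cube T u C, ∀ z, In' X z → In' X' z → X = X' := by
    intro X hX X' hX' z hz hz'
    obtain ⟨d, hd1, w, hw, h1⟩ := hIn _ _ hz
    obtain ⟨d', hd1', w', hw', h1'⟩ := hIn _ _ hz'
    have h2 : wd s (d' ++ (w'.reverse ++ (w ++ d))) X = X' := by
      rw [wd_append, wd_append, h1, ← h1', wd_append, wd_reverse s hi, hD d' hd1']
    have h3 : (d' ++ (w'.reverse ++ (w ++ d))) ∈ W₁ :=
      Finset.mem_image.2 ⟨((d', d), (w', w)), by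
        simp only [Finset.mem_product]; exact ⟨⟨hd1', hd1⟩, hw', hw⟩, rfl⟩
    have h4 := hind _ h3 X hX (by rw [h2]; exact hX')
    rw [h2] at h4
    exact h4.symm
  have hcl : ∀ X x y, In' X x → st.F x y → In' X y := by
    rintro X x y (h | h) hxy
    · exact Or.inl (st.eqv.trans h hxy)
    · exact Or.inr (st.eqv.trans h hxy)
  let F' : T.R → T.R → Prop := fun x y => st.F x y ∨ ∃ X ∈ Cube T u C, In' X x ∧ In' X y
  have hmIn : ∀ f g : T.R → T.R, Measurable f → Measurable g → MeasurableSet {x | In' (f x) (g x)} := by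
    intro f g hf hg
    have : {x | In' (f x) (g x)} = {x | st.F (f x) (g x)} ∪ {x | st.F (s i (f x)) (g x)} := rfl
    rw [this]
    exact (st.meas f g hf hg).union (st.meas _ g ((hs i).comp hf) hg)
  let W' : Finset (List ℕ) := st.W ∪ (((D ×ˢ D) ×ˢ (st.W ×ˢ st.W))).image
    (fun p => p.2.1 ++ (p.1.1 ++ (p.1.2 ++ p.2.2.reverse)))
  refine ⟨⟨F', W', ⟨fun x => Or.inl (st.eqv.refl x), ?_, ?_⟩, ?_, ?_, ?_⟩, C, hC,
    fun x y h => Or.inl h, ?_⟩
  · rintro x y (h | ⟨X, hX, h1, h2⟩)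
    · exact Or.inl (st.eqv.symm h)
    · exact Or.inr ⟨X, hX, h2, h1⟩
  · rintro x y z (h | ⟨X, hX, h1, h2⟩) (h' | ⟨X', hX', h1', h2'⟩)
    · exact Or.inl (st.eqv.trans h h')
    · exact Or.inr ⟨X', hX', hcl _ _ _ h1' (st.eqv.symm h), h2'⟩
    · exact Or.inr ⟨X, hX, h1, hcl _ _ _ h2 h'⟩
    · have := hdisj X hX X' hX' y h2 h1'
      subst this
      exact Or.inr ⟨X, hX, h1, h2'⟩
  · have hInE : ∀ X z, In' X z → E X z := by
      rintro X z (h | h)
      · exact st.sub _ _ h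
      · exact hE.trans (hsE i X) (st.sub _ _ h)
    rintro x y (h | ⟨X, hX, h1, h2⟩)
    · exact st.sub _ _ h
    · exact hE.trans (hE.symm (hInE _ _ h1)) (hInE _ _ h2)
  · rintro x y (h | ⟨X, hX, h1, h2⟩)
    · obtain ⟨l, hl, h3⟩ := st.bd _ _ h
      exact ⟨l, Finset.mem_union_left _ hl, h3⟩
    · obtain ⟨d, hd1, w, hw, h3⟩ := hIn _ _ h1
      obtain ⟨d', hd1', w', hw', h3'⟩ := hIn _ _ h2
      refine ⟨w' ++ (d' ++ (d ++ w.reverse)), Finset.mem_union_right _ (Finset.mem_image.2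
        ⟨((d', d), (w', w)), by simp only [Finset.mem_product]; exact ⟨⟨hd1', hd1⟩, hw', hw⟩, rfl⟩), ?_⟩
      rw [wd_append, wd_append, wd_append, ← h3, wd_append, wd_reverse s hi, hD d hd1,
        ← wd_append, h3']
  · intro f g hf hg
    have : {x | F' (f x) (g x)} = {x | st.F (f x) (g x)} ∪
        ⋃ p ∈ (D ×ˢ st.W), ({x | wd s (p.1 ++ p.2.reverse) (f x) ∈ Cube T u C} ∩
          {x | In' (wd s (p.1 ++ p.2.reverse) (f x)) (f x)} ∩
          {x | In' (wd s (p.1 ++ p.2.reverse) (f x)) (g x)}) := by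
      ext x
      simp only [mem_union, mem_iUnion, mem_inter_iff, exists_prop]
      constructor
      · rintro (h | ⟨X, hX, h1, h2⟩)
        · exact Or.inl h
        · right
          obtain ⟨d, hd1, w, hw, h3⟩ := hIn _ _ h1
          have h4 : wd s (d ++ w.reverse) (f x) = X := by
            rw [← h3, wd_append, wd_append, wd_reverse s hi, hD d hd1]
          refine ⟨(d, w), Finset.mem_product.2 ⟨hd1, hw⟩, ?_⟩
          refine ⟨⟨?_, ?_⟩, ?_⟩
          · show wd s (d ++ w.reverse) (f x) ∈ Cube T u C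
            rw [h4]; exact hX
          · show In' (wd s (d ++ w.reverse) (f x)) (f x)
            rw [h4]; exact h1
          · show In' (wd s (d ++ w.reverse) (f x)) (g x)
            rw [h4]; exact h2
      · rintro (h | ⟨p, _, ⟨h1, h2⟩, h3⟩)
        · exact Or.inl h
        · exact Or.inr ⟨_, h1, h2, h3⟩
    rw [this]
    refine (st.meas f g hf hg).union (Finset.measurableSet_biUnion _ fun p _ => ?_)
    have hm : Measurable fun x => wd s (p.1 ++ p.2.reverse) (f x) := (wd_meas s hs _).comp hf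
    exact ((hm (meas_cube u C)).inter (hmIn _ _ hm hf)).inter (hmIn _ _ hm hg)
  · intro X hX
    exact Or.inr ⟨X, hX, Or.inl (st.eqv.refl X), Or.inr (st.eqv.refl _)⟩

theorem stage (hR : Ram T) [Countable T.AR] (E : T.R → T.R → Prop) (hE : Equivalence E)
    (s : ℕ → T.R → T.R) (hs : ∀ i, Measurable (s i))
    (hi : ∀ i x, s i (s i x) = x) (hsE : ∀ i x, E x (s i x)) (m : ℕ) (st : FR T E s) (B : T.R) :
    ∃ (st' : FR T E s) (C : T.R), In T m C B ∧ ((∀ x y, st.F x y → st'.F x y) ∧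
      ∀ u, Dep T u C m → ∀ i ≤ m, ∀ X ∈ Cube T u C, st'.F X (s i X)) := by
  classical
  have key : ∀ P : Finset (T.AR × ℕ), ∃ (st' : FR T E s) (C : T.R), In T m C B ∧
      ((∀ x y, st.F x y → st'.F x y) ∧
      ∀ p ∈ P, Dep T p.1 C m → ∀ X ∈ Cube T p.1 C, st'.F X (s p.2 X)) := by
    intro P
    induction P using Finset.induction_on with
    | empty => exact ⟨st, B, In.refl _ _, fun _ _ h => h, by simp⟩
    | insert p P _ ih =>
      obtain ⟨st', C, hC, hmono, h1⟩ := ih
      by_cases hd : Dep T p.1 C m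
      · obtain ⟨st'', C', hC', hmono', h2⟩ := absorb hR E hE s hs hi hsE st' p.2 p.1 C m hd
        refine ⟨st'', C', hC'.trans hC le_rfl, fun x y h => hmono' _ _ (hmono _ _ h), ?_⟩
        intro q hq hdq X hX
        rcases Finset.mem_insert.1 hq with rfl | hq
        · exact h2 X hX
        · exact hmono' _ _ (h1 q hq (dep_in hdq hC' le_rfl) X (cube_mono hC'.1 hX))
      · refine ⟨st', C, hC, hmono, ?_⟩
        intro q hq hdq
        rcases Finset.mem_insert.1 hq with rfl | hq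
        · exact absurd hdq hd
        · exact h1 q hq hdq
  obtain ⟨st', C, hC, hmono, h1⟩ := key ((T.A2a (T.r m B)).toFinset ×ˢ Finset.range (m + 1))
  refine ⟨st', C, hC, hmono, fun u hu i hi' X hX => h1 (u, i) ?_ hu X hX⟩
  rw [Finset.mem_product, Set.Finite.mem_toFinset]
  refine ⟨?_, Finset.mem_range.2 (by omega)⟩
  show T.lef u (T.r m B)
  rw [← hC.2]
  exact hu.1

/-- The identity as starting relation. -/
def FR.start (T : TRS) (E : T.R → T.R → Prop) (hE : Equivalence E) (s : ℕ → T.R → T.R)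
    (hm : ∀ f g : T.R → T.R, Measurable f → Measurable g → MeasurableSet {x | f x = g x}) :
    FR T E s where
  F := fun x y => x = y
  W := {[]}
  eqv := ⟨fun _ => rfl, fun h => h.symm, fun h h' => h.trans h'⟩
  sub := fun x y h => h ▸ hE.refl x
  bd := fun x y h => ⟨[], Finset.mem_singleton_self _, h⟩
  meas := hm

theorem hyper (hR : Ram T) [Countable T.AR] (E : T.R → T.R → Prop) (hE : Equivalence E)
    (s : ℕ → T.R → T.R) (hs : ∀ i, Measurable (s i))
    (hi : ∀ i x, s i (s i x) = x) (hsE : ∀ x y, E x y ↔ ∃ i, s i x = y)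
    (hm : ∀ f g : T.R → T.R, Measurable f → Measurable g → MeasurableSet {x | f x = g x})
    (a : T.AR) (B : T.R) (n : ℕ) (hd : Dep T a B n) :
    ∃ (st : ℕ → FR T E s) (C : T.R), In T n C B ∧
      (∀ j x y, (st j).F x y → (st (j + 1)).F x y) ∧
      ∀ X ∈ Cube T a C, ∀ Y, E X Y ↔ ∃ j, (st j).F X Y := by
  obtain ⟨st, Bs, C, -, hB0, hBB, hRel, hC⟩ := fusionSt n (FR.start T E hE s hm) B
    (fun m st B st' C => (∀ x y, st.F x y → st'.F x y) ∧
      ∀ u, Dep T u C m → ∀ i ≤ m, ∀ X ∈ Cube T u C, st'.F X (s i X))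
    (stage hR E hE s hs hi (fun i x => (hsE x _).2 ⟨i, rfl⟩))
  have hmono : ∀ j x y, (st j).F x y → (st (j + 1)).F x y := fun j => (hRel j).1
  have hCB : In T n C B := by have := hC 0; rwa [hB0] at this
  refine ⟨st, C, hCB, hmono, ?_⟩
  intro X hX Y
  constructor
  · intro h
    obtain ⟨i, rfl⟩ := (hsE X Y).1 h
    obtain ⟨l, A, hA⟩ := T.surj a
    have hl := r_of_mem ⟨A, hA⟩ hX
    obtain ⟨k₀, hk₀⟩ := dep_unbounded (X := X) (B := C) i
    obtain ⟨m, hm1, hm2⟩ := dep_ext (k := max l k₀) (dep_of_in hd hCB le_rfl) hX hl (le_max_left _ _)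
    have hm3 : i ≤ m := hk₀ _ (le_max_right _ _) m hm2
    obtain ⟨j, rfl⟩ := Nat.exists_eq_add_of_le hm1
    refine ⟨j + 1, ?_⟩
    have h1 := hC (j + 1)
    exact (hRel j).2 _ (dep_in hm2 h1 (by omega)) i hm3 X (cube_mono h1.1 ⟨hX.1, _, rfl⟩)
  · rintro ⟨j, h⟩
    exact (st j).sub _ _ h

end Pool.Agent.U946.TR
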