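import Pool.Agent.U946.TR.Abs

/-!
# Topological Ramsey spaces: the Ellentuck topology
-/

set_option autoImplicit false

namespace Pool.Agent.U946.TR

open Set Pool.Agent.Q147.TR

/-- The Ellentuck topology: generated by the sets `[a, A]`. -/
def ellentuck (T : TRS) : TopologicalSpace T.R :=
  TopologicalSpace.generateFrom {U | ∃ a A, U = Cube T a A}

/-- The σ-ideal `I(R)` of the sets which are meager in the Ellentuck topology. -/
def Meager (T : TRS) (S : Set T.R) : Prop := @IsMeagre T.R (ellentuck T) S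

/-- Ellentuck open sets are completely Ramsey. -/
def OpenRam (T : TRS) : Prop := ∀ (U : Set T.R), (∀ X ∈ U, ∃ k, Cube T (T.r k X) X ⊆ U) →
  ∀ (a : T.AR) (B : T.R) (n : ℕ), Dep T a B n →
    ∃ C, In T n C B ∧ (Cube T a C ⊆ U ∨ Disjoint (Cube T a C) U)

variable {T : TRS}

theorem isOpen_cube (a : T.AR) (A : T.R) : @IsOpen T.R (ellentuck T) (Cube T a A) :=
  TopologicalSpace.isOpen_generateFrom_of_mem ⟨a, A, rfl⟩

theorem cube_anti {X : T.R} {k l : ℕ} (h : k ≤ l) : Cube T (T.r l X) X ⊆ Cube T (T.r k X) X := by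
  rintro Y ⟨h1, n, hn⟩
  have h2 := (T.A1c Y X n l hn).1
  rw [h2] at hn
  exact ⟨h1, k, r_eq_of_le hn h⟩

theorem nhd_of_isOpen {U : Set T.R} (hU : @IsOpen T.R (ellentuck T) U) :
    ∀ X ∈ U, ∃ k, Cube T (T.r k X) X ⊆ U := by
  have hU' : TopologicalSpace.GenerateOpen {U | ∃ a A, U = Cube T a A} U := hU
  clear hU
  induction hU' with
  | basic s hs =>
    obtain ⟨a, A, rfl⟩ := hs
    rintro X ⟨h1, k, hk⟩
    refine ⟨k, ?_⟩
    rw [hk]
    exact cube_mono h1
  | univ => exact fun X _ => ⟨0, subset_univ _⟩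
  | inter s t _ _ ihs iht =>
    intro X hX
    obtain ⟨k, hk⟩ := ihs X hX.1
    obtain ⟨l, hl⟩ := iht X hX.2
    exact ⟨max k l, fun Y hY => ⟨hk (cube_anti (le_max_left _ _) hY), hl (cube_anti (le_max_right _ _) hY)⟩⟩
  | sUnion S _ ih =>
    rintro X ⟨s, hs, hX⟩
    obtain ⟨k, hk⟩ := ih s hs X hX
    exact ⟨k, hk.trans (subset_sUnion_of_mem hs)⟩

theorem mem_cube_self (X : T.R) (k : ℕ) : X ∈ Cube T (T.r k X) X := ⟨T.le_refl X, k, rfl⟩

/-- A Borel set which is not meager contains a cube. -/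
theorem exists_cube (hR : Ram T) {S : Set T.R} (hS : BorelSet T S) (hm : ¬ Meager T S) :
    ∃ a C n, Dep T a C n ∧ Cube T a C ⊆ S := by
  by_contra hcon
  push Not at hcon
  apply hm
  let _ := ellentuck T
  have hnd : IsNowhereDense S := by
    show interior (closure S) = ∅
    by_contra hne
    obtain ⟨X, hX⟩ := nonempty_iff_ne_empty.2 hne
    obtain ⟨k, hk⟩ := nhd_of_isOpen isOpen_interior X hX
    obtain ⟨n, hn⟩ := exists_dep_le (T.le_refl X) k
    obtain ⟨C, hC, h1⟩ := hR S hS _ X n hn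
    have hdC := dep_of_in hn hC le_rfl
    rcases h1 with h1 | h1
    · exact hcon _ C n hdC h1
    · obtain ⟨Y, hY⟩ := cube_nonempty hdC
      have hY' : Y ∈ closure S := interior_subset (hk (cube_mono hC.1 hY))
      obtain ⟨Z, hZ1, hZ2⟩ := mem_closure_iff.1 hY' _ (isOpen_cube _ C) hY
      exact Set.disjoint_left.1 h1 hZ1 hZ2
  exact hnd.isMeagre

/-- Cubes are not meager. -/
theorem cube_not_meager (hO : OpenRam T) {a : T.AR} {B : T.R} {n : ℕ} (hd : Dep T a B n) :
    ¬ Meager T (Cube T a B) := by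
  intro hm
  let _ := ellentuck T
  obtain ⟨𝒮, h1, h2, h3⟩ := isMeagre_iff_countable_union_isNowhereDense.1 hm
  obtain ⟨N, hN⟩ : ∃ N : ℕ → Set T.R, (∀ j, IsNowhereDense (N j)) ∧ Cube T a B ⊆ ⋃ j, N j := by
    rcases 𝒮.eq_empty_or_nonempty with h | h
    · refine ⟨fun _ => ∅, fun _ => isNowhereDense_empty, ?_⟩
      rw [h, sUnion_empty] at h3
      exact h3.trans (empty_subset _)
    · obtain ⟨f, hf⟩ := h2.exists_eq_range h
      refine ⟨f, fun j => h1 _ (hf ▸ mem_range_self j), ?_⟩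
      rw [hf, sUnion_range] at h3
      exact h3
  have hdense : ∀ j v B' m, Dep T v B' m → ∃ C, In T m C B' ∧ Disjoint (Cube T v C) (N j) := by
    intro j v B' m hd'
    obtain ⟨C, hC, h4⟩ := hO (closure (N j))ᶜ (nhd_of_isOpen isClosed_closure.isOpen_compl) v B' m hd'
    refine ⟨C, hC, ?_⟩
    rcases h4 with h4 | h4
    · rw [Set.disjoint_left]
      exact fun X hX hX' => h4 hX (subset_closure hX')
    · exfalso
      obtain ⟨Y, hY⟩ := cube_nonempty (dep_of_in hd' hC le_rfl)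
      have h5 : Cube T v C ⊆ closure (N j) := by
        intro X hX
        by_contra hX'
        exact Set.disjoint_left.1 h4 hX hX'
      have h6 : Y ∈ interior (closure (N j)) := mem_interior.2 ⟨_, h5, isOpen_cube v C, hY⟩
      have h7 : interior (closure (N j)) = ∅ := hN.1 j
      rw [h7] at h6
      exact h6
  obtain ⟨C, hC, hP⟩ := fusion (P := fun m v C => ∀ j ≤ m, Disjoint (Cube T v C) (N j))
    (fun m v B C h hBC j hj => (h j hj).mono_left (cube_mono hBC)) n B
    (fun m v B' _ _ hdv => by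
      have : ∀ M, ∃ C, In T m C B' ∧ ∀ j < M, Disjoint (Cube T v C) (N j) := by
        intro M
        induction M with
        | zero => exact ⟨B', In.refl _ _, by simp⟩
        | succ M ih =>
          obtain ⟨C, hC, h4⟩ := ih
          obtain ⟨C', hC', h5⟩ := hdense M v C m (dep_of_in hdv hC le_rfl)
          refine ⟨C', hC'.trans hC le_rfl, fun j hj => ?_⟩
          rcases Nat.lt_succ_iff_lt_or_eq.1 hj with h6 | h6
          · exact (h4 j h6).mono_left (cube_mono hC'.1)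
          · rw [h6]; exact h5
      obtain ⟨C, hC, h4⟩ := this (m + 1)
      exact ⟨C, hC, fun j hj => h4 j (by omega)⟩)
  have hdC := dep_of_in hd hC le_rfl
  obtain ⟨X, hX⟩ := cube_nonempty hdC
  obtain ⟨j, hj⟩ := mem_iUnion.1 (hN.2 (cube_mono hC.1 hX))
  obtain ⟨l, A, hA⟩ := T.surj a
  have hl := r_of_mem ⟨A, hA⟩ hX
  obtain ⟨k₀, hk₀⟩ := dep_unbounded (X := X) (B := C) j
  obtain ⟨m, hm1, hm2⟩ := dep_ext (k := max l k₀) hdC hX hl (le_max_left _ _)
  have hm3 : j ≤ m := hk₀ _ (le_max_right _ _) m hm2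
  exact Set.disjoint_left.1 (hP m hm1 _ hm2 j hm3) ⟨hX.1, _, rfl⟩ hj

end Pool.Agent.U946.TR
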