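import Pool.Agent.U946.TR.Ell
import Pool.Agent.H139R3.FM

/-!
# Topological Ramsey spaces: canonization of countable Borel equivalence relations
-/

set_option autoImplicit false

namespace Pool.Agent.U946.TR

open Set Pool.Agent.Q147.TR

attribute [local instance] bor

/-- `E` is a countable Borel equivalence relation on the points of `T`. -/
structure IsCBER (T : TRS) (E : T.R → T.R → Prop) : Prop where
  eqv : Equivalence E
  borel : MeasurableSet {p : T.R × T.R | E p.1 p.2}
  countable : ∀ X, {Y | E X Y}.Countable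

/-- Borel reducibility -/
def Red {X Y : Type} [MeasurableSpace X] [MeasurableSpace Y] (E : X → X → Prop)
    (F : Y → Y → Prop) : Prop :=
  ∃ f : X → Y, Measurable f ∧ ∀ x x', E x x' ↔ F (f x) (f x')

/-- eventual equality on `2 ^ ℕ` -/
def E₀ (x y : ℕ → Bool) : Prop := ∃ n₀, ∀ n ≥ n₀, x n = y n

/-- the restriction of `E` to `C` -/
def Res {T : TRS} (E : T.R → T.R → Prop) (C : Set T.R) : C → C → Prop := fun x y => E x y

/-- hyperfinite: the union of an increasing sequence of Borel equivalence relations with finite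
classes -/
def Hyperfinite {X : Type} [MeasurableSpace X] (E : X → X → Prop) : Prop :=
  ∃ F : ℕ → X → X → Prop, (∀ j, Equivalence (F j) ∧ MeasurableSet {p : X × X | F j p.1 p.2} ∧
      ∀ x, {y | F j x y}.Finite) ∧ (∀ j x y, F j x y → F (j + 1) x y) ∧
    ∀ x y, E x y ↔ ∃ j, F j x y

/-- `R` with the topology inherited from `AR ^ ℕ` is Polish. -/
theorem polishSpace (T : TRS) [Countable T.AR] : @PolishSpace T.R (polish T) := by
  let _ : TopologicalSpace T.AR := ⊥
  have _ : DiscreteTopology T.AR := ⟨rfl⟩
  have h1 : SecondCountableTopology T.AR := inferInstance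
  have h2 : TopologicalSpace.IsCompletelyMetrizableSpace T.AR := inferInstance
  have h3 : PolishSpace T.AR := {}
  let _ : TopologicalSpace T.R := polish T
  have he : Topology.IsClosedEmbedding (fun A : T.R => fun n => T.r n A) := by
    refine ⟨⟨⟨rfl⟩, ?_⟩, T.closed⟩
    intro A B h
    by_contra hne
    obtain ⟨n, hn⟩ := T.A1b A B hne
    exact hn (congrFun h n)
  exact he.polishSpace

theorem standard (T : TRS) [Countable T.AR] : @StandardBorelSpace T.R (bor T) := by
  let _ : TopologicalSpace T.R := polish T
  have _ : PolishSpace T.R := polishSpace T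
  have _ : BorelSpace T.R := ⟨rfl⟩
  infer_instance

theorem canonize (T : TRS) [Countable T.AR] (hR : Ram T) (hRED : S_RED)
    (E : T.R → T.R → Prop) (hE : IsCBER T E) (a : T.AR) (B : T.R) (n : ℕ) (hd : Dep T a B n) :
    ∃ C, In T n C B ∧ Hyperfinite (Res E (Cube T a C)) ∧ Red (Res E (Cube T a C)) E₀ := by
  have _ := standard T
  obtain ⟨s, hs, hi, hsE⟩ := Pool.Agent.H139R3.FM.feldman_moore E hE.eqv hE.borel hE.countable
  obtain ⟨st, C, hC, hmono, hiff⟩ := hyper hR E hE.eqv s hs hi hsE
    (fun f g hf hg => measurableSet_eq_fun hf hg) a B n hd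
  have hmF : ∀ j, MeasurableSet {p : T.R × T.R | (st j).F p.1 p.2} := by
    intro j
    have : {p : T.R × T.R | (st j).F p.1 p.2} =
        ⋃ l ∈ (st j).W, ({p | wd s l p.1 = p.2} ∩ {p | (st j).F p.1 (wd s l p.1)}) := by
      ext ⟨x, y⟩
      simp only [mem_iUnion, mem_inter_iff, exists_prop]
      constructor
      · intro h
        obtain ⟨l, hl, h1⟩ := (st j).bd _ _ h
        refine ⟨l, hl, h1, ?_⟩
        show (st j).F x (wd s l x)
        rw [h1]; exact h
      · rintro ⟨l, _, h1, h2⟩
        have h1 : wd s l x = y := h1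
        have h2 : (st j).F x (wd s l x) := h2
        rw [h1] at h2; exact h2
    rw [this]
    refine Finset.measurableSet_biUnion _ fun l _ => ?_
    have h1 : MeasurableSet {p : T.R × T.R | wd s l p.1 = p.2} :=
      measurableSet_eq_fun ((wd_meas s hs l).comp measurable_fst) measurable_snd
    have h2 : MeasurableSet {p : T.R × T.R | (st j).F p.1 (wd s l p.1)} :=
      measurable_fst ((st j).meas id (wd s l) measurable_id (wd_meas s hs l))
    exact h1.inter h2
  refine ⟨C, hC, ?_, ?_⟩
  · refine ⟨fun j x y => (st j).F x y, fun j => ⟨⟨fun x => (st j).eqv.refl _,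
      fun h => (st j).eqv.symm h, fun h h' => (st j).eqv.trans h h'⟩, ?_, ?_⟩,
      fun j x y => hmono j _ _, fun x y => hiff _ x.2 _⟩
    · have h1 : Measurable fun p : Cube T a C × Cube T a C => ((p.1 : T.R), (p.2 : T.R)) :=
        (measurable_subtype_coe.comp measurable_fst).prodMk (measurable_subtype_coe.comp measurable_snd)
      exact h1 (hmF j)
    · intro x
      have h1 : {y : T.R | (st j).F x y}.Finite := by
        refine (((st j).W.finite_toSet).image (fun l => wd s l x)).subset ?_
        intro y hy
        obtain ⟨l, hl, h2⟩ := (st j).bd _ _ hy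
        exact ⟨l, hl, h2⟩
      exact Set.Finite.preimage (Subtype.val_injective.injOn) h1
  · -- enumerate the words
    obtain ⟨e, he⟩ := exists_surjective_nat (List ℕ)
    have hN : ∀ j, ∃ N : ℕ, ∀ l ∈ (st j).W, ∃ i < N, e i = l := by
      intro j
      induction (st j).W using Finset.induction_on with
      | empty => exact ⟨0, by simp⟩
      | insert l W _ ih =>
        obtain ⟨N, hN⟩ := ih
        obtain ⟨i, hi'⟩ := he l
        refine ⟨max N (i + 1), fun l' hl' => ?_⟩
        rcases Finset.mem_insert.1 hl' with rfl | hl'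
        · exact ⟨i, by omega, hi'⟩
        · obtain ⟨i', h1, h2⟩ := hN l' hl'
          exact ⟨i', by omega, h2⟩
    choose N hN using hN
    obtain ⟨f, hf, hf'⟩ := hRED T.R T.AR T.r (fun k q => meas_r k {q})
      (fun x y k h l hl => r_eq_of_le h hl)
      (fun x y h => by
        by_contra hne
        obtain ⟨n, hn⟩ := T.A1b x y hne
        exact hn (h n))
      (fun i => wd s (e i)) (fun i => wd_meas s hs (e i)) (fun j => (st j).F)
      (fun j => (st j).eqv) hmono
      (fun j i => (st j).meas id (wd s (e i)) measurable_id (wd_meas s hs _)) N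
      (fun j x y h => by
        obtain ⟨l, hl, h1⟩ := (st j).bd _ _ h
        obtain ⟨i, hi1, hi2⟩ := hN j l hl
        exact ⟨i, hi1, by rw [hi2]; exact h1⟩)
    refine ⟨fun x => f x, hf.comp measurable_subtype_coe, fun x y => ?_⟩
    show E x y ↔ _
    rw [hiff _ x.2]
    exact hf' x y

end Pool.Agent.U946.TR
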