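import Pool.Agent.U946.TR.Stm

/-!
# Topological Ramsey spaces: basic facts and fusion
-/

set_option autoImplicit false

namespace Pool.Agent.U946.TR

open Set Pool.Agent.Q147.TR

variable {T : TRS}

theorem In.refl (n : ℕ) (A : T.R) : In T n A A := ⟨T.le_refl A, rfl⟩

theorem r_eq_of_le {A B : T.R} {n k : ℕ} (h : T.r n A = T.r n B) (hk : k ≤ n) :
    T.r k A = T.r k B := by
  rcases hk.lt_or_eq with h1 | h1
  · exact (T.A1c A B n n h).2 k h1
  · rw [h1]; exact h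

theorem In.trans {n m : ℕ} {A B C : T.R} (h : In T m C A) (h' : In T n A B) (hn : n ≤ m) :
    In T n C B :=
  ⟨T.le_trans _ _ _ h.1 h'.1, (r_eq_of_le h.2 hn).trans h'.2⟩

theorem In.mono {n m : ℕ} {A B : T.R} (h : In T m A B) (hn : n ≤ m) : In T n A B :=
  ⟨h.1, r_eq_of_le h.2 hn⟩

theorem r_inj {A : T.R} {m n : ℕ} (h : T.r m A = T.r n A) : m = n := (T.A1c A A m n h).1

theorem Dep.uniq {a : T.AR} {B : T.R} {n m : ℕ} (h : Dep T a B n) (h' : Dep T a B m) : n = m :=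
  IsLeast.unique h h'

theorem dep_of_in {a : T.AR} {A B : T.R} {n m : ℕ} (h : Dep T a B n) (h' : In T m A B)
    (hn : n ≤ m) : Dep T a A n := by
  refine ⟨?_, ?_⟩
  · show T.lef a (T.r n A)
    rw [r_eq_of_le h'.2 hn]
    exact h.1
  · intro k hk
    by_contra hlt
    push Not at hlt
    have : T.lef a (T.r k B) := by
      rw [← r_eq_of_le h'.2 (hlt.le.trans hn)]
      exact hk
    exact absurd (h.2 this) (by omega)

theorem dep_in {a : T.AR} {A B : T.R} {n m : ℕ} (h : Dep T a A n) (h' : In T m A B)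
    (hn : n ≤ m) : Dep T a B n := by
  refine ⟨?_, ?_⟩
  · show T.lef a (T.r n B)
    rw [← r_eq_of_le h'.2 hn]
    exact h.1
  · intro k hk
    by_contra hlt
    push Not at hlt
    have : T.lef a (T.r k A) := by
      rw [r_eq_of_le h'.2 (hlt.le.trans hn)]
      exact hk
    exact absurd (h.2 this) (by omega)

theorem exists_dep {a : T.AR} {B : T.R} (h : ∃ n, T.lef a (T.r n B)) : ∃ n, Dep T a B n := by
  classical
  refine ⟨Nat.find h, Nat.find_spec h, ?_⟩
  intro k hk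
  exact Nat.find_min' h hk

theorem exists_dep_le {X B : T.R} (h : T.le X B) (k : ℕ) : ∃ n, Dep T (T.r k X) B n :=
  exists_dep ((T.A2b X B).1 h k)

theorem dep_mono {X B : T.R} {k l n : ℕ} (hkl : k ≤ l) (h : Dep T (T.r l X) B n) :
    ∃ m, m ≤ n ∧ Dep T (T.r k X) B m := by
  obtain ⟨d, ⟨A, p, q, hpq, hd, hq⟩, h2⟩ :=
    T.A2c (T.r k X) (T.r l X) (T.r n B) ⟨X, k, l, hkl, rfl, rfl⟩ h.1
  have h3 := T.A1c B A n q hq
  have hp : T.r p A = T.r p B := by
    rcases (h3.1 ▸ hpq : p ≤ n).lt_or_eq with h4 | h4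
    · exact (h3.2 p h4).symm
    · rw [h4, hq, h3.1]
  have h5 : T.lef (T.r k X) (T.r p B) := by rw [← hp, ← hd]; exact h2
  obtain ⟨m, hm⟩ := exists_dep ⟨p, h5⟩
  refine ⟨m, ?_, hm⟩
  have := hm.2 h5
  have := h3.1
  omega

theorem cube_mono {a : T.AR} {A B : T.R} (h : T.le A B) : Cube T a A ⊆ Cube T a B :=
  fun _ hX => ⟨T.le_trans _ _ _ hX.1 h, hX.2⟩

theorem cube_nonempty {a : T.AR} {B : T.R} {n : ℕ} (h : Dep T a B n) : (Cube T a B).Nonempty := by
  obtain ⟨C, h1, k, h2⟩ := T.A3a B a n h B (T.le_refl B) rfl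
  exact ⟨C, h1, k, h2⟩

theorem shrink {a : T.AR} {A B : T.R} {n : ℕ} (h : Dep T a B n) (hA : T.le A B)
    (hne : (Cube T a A).Nonempty) : ∃ C, In T n C B ∧ Cube T a C ⊆ Cube T a A := by
  obtain ⟨X, h1, h2⟩ := hne
  obtain ⟨A', h3, -, h5⟩ := T.A3b B a n h A hA ⟨X, h1, h2⟩
  exact ⟨A', h3, fun Y hY => ⟨h5 Y hY.1 hY.2, hY.2⟩⟩

/-- The depths of the initial segments of `X ≤ B` are unbounded. -/
theorem dep_unbounded {X B : T.R} (N : ℕ) :
    ∃ k₀, ∀ k ≥ k₀, ∀ n, Dep T (T.r k X) B n → N ≤ n := by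
  classical
  have hfin : {k | ∃ n < N, Dep T (T.r k X) B n}.Finite := by
    have h1 : (⋃ n ∈ Finset.range N, {a | T.lef a (T.r n B)}).Finite :=
      Set.Finite.biUnion (Finset.range N).finite_toSet fun n _ => T.A2a _
    refine Set.Finite.of_finite_image (f := fun k => T.r k X) (h1.subset ?_) ?_
    · rintro _ ⟨k, ⟨n, hn, hd⟩, rfl⟩
      simp only [mem_iUnion, Finset.mem_range, mem_ofPred_eq, exists_prop]
      exact ⟨n, hn, hd.1⟩
    · intro k _ l _ hkl
      exact r_inj hkl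
  obtain ⟨k₀, hk₀⟩ := hfin.bddAbove
  refine ⟨k₀ + 1, fun k hk n hn => ?_⟩
  by_contra hlt
  have := hk₀ (show k ∈ {k | ∃ n < N, Dep T (T.r k X) B n} from ⟨n, by omega, hn⟩)
  omega

/-- The limit of a fusion sequence. -/
theorem lim_seq (n₀ : ℕ) (B : ℕ → T.R) (h : ∀ j, In T (n₀ + j) (B (j + 1)) (B j)) :
    ∃ C, ∀ j, In T (n₀ + j) C (B j) := by
  have hstep : ∀ i j, In T (n₀ + j) (B (j + i)) (B j) := by
    intro i
    induction i with
    | zero => intro j; exact In.refl _ _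
    | succ i ih =>
      intro j
      exact (h (j + i)).trans (ih j) (by omega)
  have hlim : (fun k => T.r k (B k)) ∈ Set.range fun A : T.R => fun n => T.r n A := by
    let _ : TopologicalSpace T.AR := ⊥
    have _ : DiscreteTopology T.AR := ⟨rfl⟩
    have hc := T.closed
    rw [← hc.closure_eq, mem_closure_iff_nhds]
    intro U hU
    obtain ⟨V, hVU, hV, hxV⟩ := mem_nhds_iff.1 hU
    obtain ⟨I, u, hu, hIV⟩ := isOpen_pi_iff.1 hV _ hxV
    obtain ⟨N, hN⟩ := I.bddAbove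
    refine ⟨fun n => T.r n (B N), hVU (hIV ?_), ⟨B N, rfl⟩⟩
    intro k hk
    have hkN : k ≤ N := hN hk
    have h1 := (hstep (N - k) k).2
    have h2 : k + (N - k) = N := by omega
    rw [h2] at h1
    have h3 : T.r k (B N) = T.r k (B k) := r_eq_of_le h1 (by omega)
    show T.r k (B N) ∈ u k
    rw [h3]
    exact (hu k hk).2
  obtain ⟨C, hC⟩ := hlim
  have hC' : ∀ k, T.r k C = T.r k (B k) := fun k => congrFun hC k
  refine ⟨C, fun j => ⟨(T.A2b C (B j)).2 fun n => ?_, ?_⟩⟩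
  · have h1 : T.r n C = T.r n (B (max n j)) := by
      rw [hC' n]
      have h2 := (hstep (max n j - n) n).2
      have h3 : n + (max n j - n) = max n j := by omega
      rw [h3] at h2
      exact (r_eq_of_le h2 (by omega)).symm
    rw [h1]
    have h4 := (hstep (max n j - j) j).1
    have h5 : j + (max n j - j) = max n j := by omega
    rw [h5] at h4
    exact (T.A2b _ _).1 h4 n
  · rw [hC' (n₀ + j)]
    have h2 := (hstep n₀ j).2
    rw [show j + n₀ = n₀ + j by omega] at h2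
    exact h2

/-- Fusion with a state. -/
theorem fusionSt {S : Type} (n₀ : ℕ) (s₀ : S) (B₀ : T.R) (Rel : ℕ → S → T.R → S → T.R → Prop)
    (step : ∀ m s B, ∃ s' C, In T m C B ∧ Rel m s B s' C) :
    ∃ (s : ℕ → S) (B : ℕ → T.R) (C : T.R), s 0 = s₀ ∧ B 0 = B₀ ∧
      (∀ j, In T (n₀ + j) (B (j + 1)) (B j)) ∧
      (∀ j, Rel (n₀ + j) (s j) (B j) (s (j + 1)) (B (j + 1))) ∧ ∀ j, In T (n₀ + j) C (B j) := by
  choose f g hf hg using step
  let seq : ℕ → S × T.R := fun j => Nat.rec (s₀, B₀)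
    (fun j p => (f (n₀ + j) p.1 p.2, g (n₀ + j) p.1 p.2)) j
  have h0 : seq 0 = (s₀, B₀) := rfl
  have h1 : ∀ j, seq (j + 1) = (f (n₀ + j) (seq j).1 (seq j).2, g (n₀ + j) (seq j).1 (seq j).2) :=
    fun j => rfl
  have h2 : ∀ j, In T (n₀ + j) (seq (j + 1)).2 (seq j).2 := by
    intro j
    rw [h1]
    exact hf _ _ _
  obtain ⟨C, hC⟩ := lim_seq n₀ (fun j => (seq j).2) h2
  refine ⟨fun j => (seq j).1, fun j => (seq j).2, C, rfl, rfl, h2, ?_, hC⟩
  intro j
  show Rel (n₀ + j) (seq j).1 (seq j).2 (seq (j + 1)).1 (seq (j + 1)).2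
  rw [h1]
  exact hg _ _ _

/-- Fusion for a hereditary and dense property. -/
theorem fusion (P : ℕ → T.AR → T.R → Prop)
    (hered : ∀ m a B C, P m a B → T.le C B → P m a C)
    (n₀ : ℕ) (B₀ : T.R)
    (dense : ∀ m a B, n₀ ≤ m → In T n₀ B B₀ → Dep T a B m → ∃ C, In T m C B ∧ P m a C) :
    ∃ C, In T n₀ C B₀ ∧ ∀ m ≥ n₀, ∀ a, Dep T a C m → P m a C := by
  classical
  have stage : ∀ m B, n₀ ≤ m → In T n₀ B B₀ → ∃ C, In T m C B ∧ ∀ a, Dep T a C m → P m a C := by
    intro m B hm hB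
    have key : ∀ S : Finset T.AR, ∃ C, In T m C B ∧ ∀ a ∈ S, Dep T a C m → P m a C := by
      intro S
      induction S using Finset.induction_on with
      | empty => exact ⟨B, In.refl _ _, by simp⟩
      | insert a S _ ih =>
        obtain ⟨C, hC, hS⟩ := ih
        by_cases hd : Dep T a C m
        · obtain ⟨C', hC', hP⟩ := dense m a C hm (hC.trans hB hm) hd
          refine ⟨C', hC'.trans hC le_rfl, ?_⟩
          intro b hb hdb
          rcases Finset.mem_insert.1 hb with rfl | hb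
          · exact hP
          · exact hered _ _ _ _ (hS b hb (dep_in hdb hC' le_rfl)) hC'.1
        · refine ⟨C, hC, ?_⟩
          intro b hb hdb
          rcases Finset.mem_insert.1 hb with rfl | hb
          · exact absurd hdb hd
          · exact hS b hb hdb
    obtain ⟨C, hC, h1⟩ := key (T.A2a (T.r m B)).toFinset
    refine ⟨C, hC, fun a ha => h1 a ?_ ha⟩
    rw [Set.Finite.mem_toFinset]
    show T.lef a (T.r m B)
    rw [← hC.2]
    exact ha.1
  -- a sequence of points of `[n₀, B₀]`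
  have step : ∀ (m : ℕ) (s : Unit) (B : T.R), ∃ (s' : Unit) (C : T.R), In T m C B ∧
      (n₀ ≤ m → In T n₀ B B₀ → ∀ a, Dep T a C m → P m a C) := by
    intro m s B
    by_cases h : n₀ ≤ m ∧ In T n₀ B B₀
    · obtain ⟨C, hC, h1⟩ := stage m B h.1 h.2
      exact ⟨(), C, hC, fun _ _ => h1⟩
    · exact ⟨(), B, In.refl _ _, fun h1 h2 => absurd ⟨h1, h2⟩ h⟩
  obtain ⟨s, B, C, -, hB0, hBB, hRel, hC⟩ := fusionSt n₀ () B₀
    (fun m _ B _ C => n₀ ≤ m → In T n₀ B B₀ → ∀ a, Dep T a C m → P m a C) step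
  have hin : ∀ j, In T n₀ (B j) B₀ := by
    intro j
    induction j with
    | zero => rw [hB0]; exact In.refl _ _
    | succ j ih => exact (hBB j).trans ih (by omega)
  refine ⟨C, by have := hC 0; rwa [hB0] at this, ?_⟩
  intro m hm a ha
  obtain ⟨j, rfl⟩ := Nat.exists_eq_add_of_le hm
  have h1 := hRel j (by omega) (hin j)
  have h2 := hC (j + 1)
  have h3 : Dep T a (B (j + 1)) (n₀ + j) := dep_in ha h2 (by omega)
  exact hered _ _ _ _ (h1 a h3) h2.1

end Pool.Agent.U946.TR
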