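import Pool.Agent.U946.TR.Fus

/-!
# Topological Ramsey spaces: finitely many Borel bijections are trivial on a cube
-/

set_option autoImplicit false

namespace Pool.Agent.U946.TR

open Set Pool.Agent.Q147.TR

/-- Borel sets of `R` -/
@[reducible] def bor (T : TRS) : MeasurableSpace T.R := @borel T.R (polish T)

attribute [local instance] bor

/-- Borel sets are completely Ramsey -/
def Ram (T : TRS) : Prop := ∀ (S : Set T.R), BorelSet T S → ∀ (a : T.AR) (B : T.R) (n : ℕ),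
  Dep T a B n → ∃ C, In T n C B ∧ (Cube T a C ⊆ S ∨ Disjoint (Cube T a C) S)

variable {T : TRS}

theorem meas_r (k : ℕ) (s : Set T.AR) : MeasurableSet {X : T.R | T.r k X ∈ s} := by
  have h : @IsOpen T.R (polish T) {X : T.R | T.r k X ∈ s} := by
    let _ : TopologicalSpace T.AR := ⊥
    have _ : DiscreteTopology T.AR := ⟨rfl⟩
    refine ⟨{x : ℕ → T.AR | x k ∈ s}, ?_, rfl⟩
    exact (isOpen_discrete s).preimage (continuous_apply k)
  exact MeasurableSpace.measurableSet_generateFrom h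

theorem meas_le (A : T.R) : MeasurableSet {X : T.R | T.le X A} := by
  have : {X : T.R | T.le X A} = ⋂ n, {X | T.r n X ∈ {a | ∃ m, T.lef a (T.r m A)}} := by
    ext X
    simp only [mem_iInter]
    exact T.A2b X A
  rw [this]
  exact MeasurableSet.iInter fun n => meas_r n _

theorem meas_cube (a : T.AR) (A : T.R) : MeasurableSet (Cube T a A) := by
  have : Cube T a A = {X : T.R | T.le X A} ∩ ⋃ n, {X | T.r n X ∈ ({a} : Set T.AR)} := by
    ext X
    simp only [mem_inter_iff, mem_iUnion]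
    rfl
  rw [this]
  exact (meas_le A).inter (MeasurableSet.iUnion fun n => meas_r n _)

theorem dec_fin (hR : Ram T) {ι : Type} (s : Finset ι) (S : ι → Set T.R)
    (hS : ∀ i, MeasurableSet (S i)) {a : T.AR} {B : T.R} {n : ℕ} (h : Dep T a B n) :
    ∃ C, In T n C B ∧ ∀ i ∈ s, Cube T a C ⊆ S i ∨ Disjoint (Cube T a C) (S i) := by
  classical
  induction s using Finset.induction_on with
  | empty => exact ⟨B, In.refl _ _, by simp⟩
  | insert i s _ ih =>
    obtain ⟨C, hC, h1⟩ := ih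
    obtain ⟨C', hC', h2⟩ := hR (S i) (hS i) a C n (dep_of_in h hC le_rfl)
    refine ⟨C', hC'.trans hC le_rfl, ?_⟩
    intro j hj
    rcases Finset.mem_insert.1 hj with rfl | hj
    · exact h2
    · rcases h1 j hj with h3 | h3
      · exact Or.inl ((cube_mono hC'.1).trans h3)
      · exact Or.inr (h3.mono_left (cube_mono hC'.1))

theorem exists_parity {α : Type} (ν : α → ℕ) (e : α → α → Prop) (h1 : ∀ a b, e a b → ν b < ν a)
    (h2 : ∀ a b b', e a b → e a b' → b = b') : ∃ c : α → Prop, ∀ a b, e a b → (c a ↔ ¬ c b) := by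
  let c : α → Prop := WellFounded.fix (measure ν).wf
    (fun a ih => ∃ b, ∃ h : e a b, ¬ ih b (h1 a b h))
  refine ⟨c, fun a b hab => ?_⟩
  have hc : c a = ∃ b, ∃ _ : e a b, ¬ c b := WellFounded.fix_eq (measure ν).wf _ a
  rw [hc]
  constructor
  · rintro ⟨b', h', h3⟩
    rw [h2 a b b' hab h']
    exact h3
  · intro h
    exact ⟨b, hab, h⟩

theorem r_of_mem {u : T.AR} {l : ℕ} (hl : ∃ A, T.r l A = u) {X C : T.R} (hX : X ∈ Cube T u C) :
    T.r l X = u := by
  obtain ⟨A, hA⟩ := hl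
  obtain ⟨k, hk⟩ := hX.2
  have := (T.A1c X A k l (hk.trans hA.symm)).1
  rw [← this]
  exact hk

theorem dep_ext {u : T.AR} {B X : T.R} {n l k : ℕ} (hd : Dep T u B n) (hX : X ∈ Cube T u B)
    (hl : T.r l X = u) (hk : l ≤ k) : ∃ m, n ≤ m ∧ Dep T (T.r k X) B m := by
  obtain ⟨m, hm⟩ := exists_dep_le hX.1 k
  obtain ⟨m', h1, h2⟩ := dep_mono hk hm
  rw [hl] at h2
  have := hd.uniq h2
  exact ⟨m, by omega, hm⟩

/-- One step: the next approximation does not change. -/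
theorem key1 (hR : Ram T) [Countable T.AR] (w w' : T.R → T.R) (hw : Measurable w)
    (hw' : Measurable w') (hww : ∀ X, w' (w X) = X) (l : ℕ) (u : T.AR) (hl : ∃ A, T.r l A = u)
    (B : T.R) (n : ℕ) (hd : Dep T u B n) :
    ∃ C, In T n C B ∧ ∀ X ∈ Cube T u C, w X ∈ Cube T u C → T.r (l + 1) (w X) = T.r (l + 1) X := by
  classical
  obtain ⟨ν, hν⟩ := Countable.exists_injective_nat T.AR
  have hfin : ∀ a, {b | ν b < ν a}.Finite := by
    intro a
    exact Set.Finite.preimage hν.injOn (Set.finite_Iio (ν a))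
  have hmS : ∀ (f : T.R → T.R), Measurable f → ∀ b : T.AR,
      MeasurableSet {X | T.r (l + 1) (f X) = b} := fun f hf b => hf (meas_r (l + 1) {b})
  obtain ⟨C₁, hC₁, hP⟩ := fusion
    (P := fun _ a C => ∀ b, ν b < ν a →
      (Cube T a C ⊆ {X | T.r (l + 1) (w X) = b} ∨ Disjoint (Cube T a C) {X | T.r (l + 1) (w X) = b}) ∧
      (Cube T a C ⊆ {X | T.r (l + 1) (w' X) = b} ∨
        Disjoint (Cube T a C) {X | T.r (l + 1) (w' X) = b}))
    (fun _ a B C h hBC b hb =>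
      ⟨(h b hb).1.imp ((cube_mono hBC).trans) (fun h' => h'.mono_left (cube_mono hBC)),
        (h b hb).2.imp ((cube_mono hBC).trans) (fun h' => h'.mono_left (cube_mono hBC))⟩)
    n B (fun m a B' _ _ hda => by
      obtain ⟨C, hC, h1⟩ := dec_fin hR (hfin a).toFinset (fun b => {X | T.r (l + 1) (w X) = b})
        (fun b => hmS w hw b) hda
      obtain ⟨C', hC', h2⟩ := dec_fin hR (hfin a).toFinset (fun b => {X | T.r (l + 1) (w' X) = b})
        (fun b => hmS w' hw' b) (dep_of_in hda hC le_rfl)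
      refine ⟨C', hC'.trans hC le_rfl, fun b hb => ?_⟩
      have hb' : b ∈ (hfin a).toFinset := by
        rw [Set.Finite.mem_toFinset]; exact hb
      exact ⟨(h1 b hb').imp ((cube_mono hC'.1).trans) (fun h' => h'.mono_left (cube_mono hC'.1)),
        h2 b hb'⟩)
  have hdC₁ := dep_of_in hd hC₁ le_rfl
  -- the two colourings
  have hcol : ∀ f : T.R → T.R, ∃ c : T.AR → Prop, ∀ a b, ν b < ν a → (Cube T a C₁).Nonempty →
      Cube T a C₁ ⊆ {X | T.r (l + 1) (f X) = b} → (c a ↔ ¬ c b) := by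
    intro f
    obtain ⟨c, hc⟩ := exists_parity ν
      (fun a b => ν b < ν a ∧ (Cube T a C₁).Nonempty ∧ Cube T a C₁ ⊆ {X | T.r (l + 1) (f X) = b})
      (fun a b h => h.1) (fun a b b' h h' => by
        obtain ⟨X, hX⟩ := h.2.1
        have h3 : T.r (l + 1) (f X) = b := h.2.2 hX
        have h4 : T.r (l + 1) (f X) = b' := h'.2.2 hX
        exact h3.symm.trans h4)
    exact ⟨c, fun a b h1 h2 h3 => hc a b ⟨h1, h2, h3⟩⟩
  obtain ⟨c, hc⟩ := hcol w
  obtain ⟨c', hc'⟩ := hcol w'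
  obtain ⟨C₂, hC₂, h2⟩ := T.A4 C₁ u n l hdC₁ hl {a | c a}
  have hC₂ : In T n C₂ C₁ := hC₂
  obtain ⟨C₃, hC₃, h3⟩ := T.A4 C₂ u n l (dep_of_in hdC₁ hC₂ le_rfl) hl {a | c' a}
  have hC₃ : In T n C₃ C₂ := hC₃
  refine ⟨C₃, (hC₃.trans hC₂ le_rfl).trans hC₁ le_rfl, ?_⟩
  intro X hX hY
  have e2 : c (T.r (l + 1) X) ↔ c (T.r (l + 1) (w X)) := by
    have hX2 := cube_mono hC₃.1 hX
    have hY2 := cube_mono hC₃.1 hY
    rcases h2 with h2 | h2
    · exact ⟨fun _ => h2 _ hY2.1 hY2.2, fun _ => h2 _ hX2.1 hX2.2⟩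
    · exact ⟨fun h => absurd h (h2 _ hX2.1 hX2.2), fun h => absurd h (h2 _ hY2.1 hY2.2)⟩
  have e3 : c' (T.r (l + 1) X) ↔ c' (T.r (l + 1) (w X)) := by
    rcases h3 with h3 | h3
    · exact ⟨fun _ => h3 _ hY.1 hY.2, fun _ => h3 _ hX.1 hX.2⟩
    · exact ⟨fun h => absurd h (h3 _ hX.1 hX.2), fun h => absurd h (h3 _ hY.1 hY.2)⟩
  have hX1 : X ∈ Cube T u C₁ := cube_mono (hC₃.trans hC₂ le_rfl).1 hX
  have hY1 : w X ∈ Cube T u C₁ := cube_mono (hC₃.trans hC₂ le_rfl).1 hY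
  by_contra hne
  have hν' : ν (T.r (l + 1) (w X)) ≠ ν (T.r (l + 1) X) := fun h => hne (hν h)
  rcases lt_or_gt_of_ne hν' with hlt | hlt
  · obtain ⟨m, hm, hdm⟩ := dep_ext hdC₁ hX1 (r_of_mem hl hX1) (Nat.le_succ l)
    have hmem : X ∈ Cube T (T.r (l + 1) X) C₁ := ⟨hX1.1, l + 1, rfl⟩
    rcases (hP m hm _ hdm _ hlt).1 with h4 | h4
    · have := hc _ _ hlt ⟨X, hmem⟩ h4
      tauto
    · exact (Set.disjoint_left.1 h4 hmem) rfl
  · obtain ⟨m, hm, hdm⟩ := dep_ext hdC₁ hY1 (r_of_mem hl hY1) (Nat.le_succ l)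
    have hmem : w X ∈ Cube T (T.r (l + 1) (w X)) C₁ := ⟨hY1.1, l + 1, rfl⟩
    rcases (hP m hm _ hdm _ hlt).2 with h4 | h4
    · have := hc' _ _ hlt ⟨w X, hmem⟩ h4
      tauto
    · refine (Set.disjoint_left.1 h4 hmem) ?_
      show T.r (l + 1) (w' (w X)) = _
      rw [hww]

theorem key2 (hR : Ram T) [Countable T.AR] (w w' : T.R → T.R) (hw : Measurable w)
    (hw' : Measurable w') (hww : ∀ X, w' (w X) = X) (u : T.AR)
    (B : T.R) (n : ℕ) (hd : Dep T u B n) :
    ∃ C, In T n C B ∧ ∀ X ∈ Cube T u C, w X ∈ Cube T u C → w X = X := by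
  obtain ⟨C, hC, hP⟩ := fusion
    (P := fun _ v C => ∀ l, (∃ A, T.r l A = v) → ∀ X ∈ Cube T v C, w X ∈ Cube T v C →
      T.r (l + 1) (w X) = T.r (l + 1) X)
    (fun _ v B C h hBC l hl X hX hY => h l hl X (cube_mono hBC hX) (cube_mono hBC hY))
    n B (fun m v B' _ _ hda => by
      obtain ⟨l, A, hA⟩ := T.surj v
      obtain ⟨C, hC, h1⟩ := key1 hR w w' hw hw' hww l v ⟨A, hA⟩ B' m hda
      refine ⟨C, hC, fun l' ⟨A', hA'⟩ X hX hY => ?_⟩
      have := (T.A1c A' A l' l (hA'.trans hA.symm)).1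
      rw [this]
      exact h1 X hX hY)
  have hdC := dep_of_in hd hC le_rfl
  refine ⟨C, hC, fun X hX hY => ?_⟩
  obtain ⟨l, A, hA⟩ := T.surj u
  have hlX := r_of_mem ⟨A, hA⟩ hX
  have hlY := r_of_mem ⟨A, hA⟩ hY
  have hk : ∀ k, T.r (l + k) (w X) = T.r (l + k) X := by
    intro k
    induction k with
    | zero => rw [Nat.add_zero, hlX, hlY]
    | succ k ih =>
      obtain ⟨m, hm, hdm⟩ := dep_ext hdC hX hlX (Nat.le_add_right l k)
      exact hP m hm _ hdm (l + k) ⟨X, rfl⟩ X ⟨hX.1, _, rfl⟩ ⟨hY.1, _, ih⟩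
  by_contra hne
  obtain ⟨k, hk'⟩ := T.A1b _ _ hne
  exact hk' (r_eq_of_le (hk k) (by omega))

/-- The word `l` in the maps `s i`. -/
def wd {X : Type} (s : ℕ → X → X) (l : List ℕ) (x : X) : X := l.foldr (fun i y => s i y) x

theorem wd_append {X : Type} (s : ℕ → X → X) (l l' : List ℕ) (x : X) :
    wd s (l ++ l') x = wd s l (wd s l' x) := by
  simp [wd, List.foldr_append]

theorem wd_nil {X : Type} (s : ℕ → X → X) (x : X) : wd s [] x = x := rfl

theorem wd_cons {X : Type} (s : ℕ → X → X) (i : ℕ) (l : List ℕ) (x : X) :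
    wd s (i :: l) x = s i (wd s l x) := rfl

theorem wd_reverse {X : Type} (s : ℕ → X → X) (hs : ∀ i x, s i (s i x) = x) (l : List ℕ) (x : X) :
    wd s l.reverse (wd s l x) = x := by
  induction l with
  | nil => rfl
  | cons i l ih =>
    rw [List.reverse_cons, wd_append, wd_cons s i l, wd_cons, wd_nil, hs, ih]

theorem wd_reverse' {X : Type} (s : ℕ → X → X) (hs : ∀ i x, s i (s i x) = x) (l : List ℕ) (x : X) :
    wd s l (wd s l.reverse x) = x := by
  have := wd_reverse s hs l.reverse x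
  rwa [List.reverse_reverse] at this

theorem wd_meas {X : Type} [MeasurableSpace X] (s : ℕ → X → X) (hs : ∀ i, Measurable (s i))
    (l : List ℕ) : Measurable (wd s l) := by
  induction l with
  | nil => exact measurable_id
  | cons i l ih => exact (hs i).comp ih

theorem key3 (hR : Ram T) [Countable T.AR] (s : ℕ → T.R → T.R) (hs : ∀ i, Measurable (s i))
    (hi : ∀ i x, s i (s i x) = x) (W : Finset (List ℕ)) (u : T.AR)
    (B : T.R) (n : ℕ) (hd : Dep T u B n) :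
    ∃ C, In T n C B ∧ ∀ l ∈ W, ∀ X ∈ Cube T u C, wd s l X ∈ Cube T u C → wd s l X = X := by
  classical
  induction W using Finset.induction_on with
  | empty => exact ⟨B, In.refl _ _, by simp⟩
  | insert l W _ ih =>
    obtain ⟨C, hC, h1⟩ := ih
    obtain ⟨C', hC', h2⟩ := key2 hR (wd s l) (wd s l.reverse) (wd_meas s hs l)
      (wd_meas s hs l.reverse) (wd_reverse s hi l) u C n (dep_of_in hd hC le_rfl)
    refine ⟨C', hC'.trans hC le_rfl, ?_⟩
    intro l' hl' X hX hY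
    rcases Finset.mem_insert.1 hl' with rfl | hl'
    · exact h2 X hX hY
    · exact h1 l' hl' X (cube_mono hC'.1 hX) (cube_mono hC'.1 hY)

end Pool.Agent.U946.TR
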