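import Mathlib
import Pool.Agent.Q147.TRSpace

/-!
# Project TR: countable Borel equivalence relations on topological Ramsey spaces

`TRS` (library, `Pool.Agent.Q147.TRSpace`) is the structure of a topological Ramsey space.
-/

set_option autoImplicit false

namespace Pool.Agent.U946.TR

open Set Pool.Agent.Q147.TR

/-- `A ∈ [n, B]` -/
def In (T : TRS) (n : ℕ) (A B : T.R) : Prop := T.le A B ∧ T.r n A = T.r n B

/-- the set `[a, A]` -/
def Cube (T : TRS) (a : T.AR) (A : T.R) : Set T.R := {X | T.le X A ∧ ∃ n, T.r n X = a}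

/-- the depth of `a` in `B` is `n` (in particular it is finite) -/
def Dep (T : TRS) (a : T.AR) (B : T.R) (n : ℕ) : Prop := IsLeast {n | T.lef a (T.r n B)} n

/-- The topology of `R` as a subspace of `AR ^ ℕ`, where `AR` is discrete. -/
def polish (T : TRS) : TopologicalSpace T.R :=
  TopologicalSpace.induced (fun A n => T.r n A) (@Pi.topologicalSpace ℕ (fun _ => T.AR) (fun _ => ⊥))

/-- Borel subsets of `R` -/
def BorelSet (T : TRS) (S : Set T.R) : Prop := @MeasurableSet T.R (@borel T.R (polish T)) S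

/-- Package RAM: Borel sets are completely Ramsey (the abstract Ellentuck theorem for Borel sets). -/
def S_RAM : Prop :=
  ∀ (T : TRS) (S : Set T.R), BorelSet T S → ∀ (a : T.AR) (B : T.R) (n : ℕ), Dep T a B n →
    ∃ C, In T n C B ∧ (Cube T a C ⊆ S ∨ Disjoint (Cube T a C) S)

/-- Package RED: an increasing union of finite Borel equivalence relations, each of them covered by
the graphs of finitely many measurable maps, is Borel reducible to `E_0`. -/
def S_RED : Prop :=
  ∀ (X Q : Type) [MeasurableSpace X] [Countable Q] (r : ℕ → X → Q)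
    (_ : ∀ k q, MeasurableSet {x | r k x = q})
    (_ : ∀ x y k, r k x = r k y → ∀ l ≤ k, r l x = r l y)
    (_ : ∀ x y, (∀ k, r k x = r k y) → x = y)
    (w : ℕ → X → X) (_ : ∀ i, Measurable (w i))
    (F : ℕ → X → X → Prop) (_ : ∀ j, Equivalence (F j))
    (_ : ∀ j x y, F j x y → F (j + 1) x y)
    (_ : ∀ j i, MeasurableSet {x | F j x (w i x)})
    (N : ℕ → ℕ) (_ : ∀ j x y, F j x y → ∃ i < N j, w i x = y),
    ∃ f : X → ℕ → Bool, Measurable f ∧
      ∀ x y, (∃ j, F j x y) ↔ ∃ n₀, ∀ n ≥ n₀, f x n = f y n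

end Pool.Agent.U946.TR
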